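import Mathlib.Data.Nat.Bitwise

/-! A checker for unit propagation refutations, to be evaluated by the kernel.

A clause is a natural number: bit `i < M` is the literal `x_i`, bit `M + i` is the literal `not x_i`.
The axioms are given by a function `ax`: `ax c` is a clause for every code `c`. -/

set_option autoImplicit false

namespace Pool.Agent.RUP

/-- the value of the literal `j` -/
def lit (M : Nat) (f : Nat → Bool) (j : Nat) : Bool := if j < M then f j else !f (j - M)

/-- the clause `c` is true under the assignment `f` -/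
def Sat (M : Nat) (f : Nat → Bool) (c : Nat) : Prop :=
  ∃ j, j < 2 * M ∧ Nat.testBit c j = true ∧ lit M f j = true

/-- binary tries of natural numbers -/
inductive Tr : Type
  | e : Tr
  | n : Nat → Tr → Tr → Tr

/-- look up the entry `i ≥ 1`; the default is `d` -/
noncomputable def get (d : Nat) (t : Tr) : Nat → Nat :=
  Tr.rec (motive := fun _ => Nat → Nat) (fun _ => d)
    (fun v _ _ fl fr i =>
      Bool.rec (Bool.rec (fr (Nat.shiftRight i 1)) (fl (Nat.shiftRight i 1)) (Nat.beq (Nat.land i 1) 0)) v
        (Nat.beq i 1)) t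

/-- insert the entry `i ≥ 1`; `k` is fuel -/
noncomputable def ins (d c : Nat) (k : Nat) : Tr → Nat → Tr :=
  Nat.rec (motive := fun _ => Tr → Nat → Tr) (fun t _ => t)
    (fun _ ih t i =>
      Bool.rec
        (Bool.rec
          (Tr.rec (motive := fun _ => Tr) (Tr.n d Tr.e (ih Tr.e (Nat.shiftRight i 1)))
            (fun v l r _ _ => Tr.n v l (ih r (Nat.shiftRight i 1))) t)
          (Tr.rec (motive := fun _ => Tr) (Tr.n d (ih Tr.e (Nat.shiftRight i 1)) Tr.e)
            (fun v l r _ _ => Tr.n v (ih l (Nat.shiftRight i 1)) r) t)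
          (Nat.beq (Nat.land i 1) 0))
        (Tr.rec (motive := fun _ => Tr) (Tr.n c Tr.e Tr.e) (fun _ l r _ _ => Tr.n c l r) t)
        (Nat.beq i 1)) k

/-- the clause with the hint `h`: even = learned clause, odd = given clause -/
noncomputable def cl (ax : Nat → Nat) (d : Nat) (t : Tr) (h : Nat) : Nat :=
  Bool.rec (ax (Nat.shiftRight h 1)) (get d t (Nat.shiftRight h 1)) (Nat.beq (Nat.land h 1) 0)

/-- unit propagation with `n` hints of 36 bits in `H`; `A` is the set of false literals -/
noncomputable def up (ax : Nat → Nat) (M d : Nat) (t : Tr) (n : Nat) : Nat → Nat → Bool :=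
  Nat.rec (motive := fun _ => Nat → Nat → Bool) (fun _ _ => false)
    (fun _ ih H A =>
      (fun r : Nat =>
        Bool.rec
          (Bool.rec false
            (ih (Nat.shiftRight H 36)
              (Nat.lor A (Bool.rec (Nat.shiftRight r M) (Nat.shiftLeft r M) (Nat.beq (Nat.shiftRight r M) 0))))
            (Nat.beq (Nat.land r (Nat.sub r 1)) 0))
          true (Nat.beq r 0))
      ((fun c : Nat => Nat.xor c (Nat.land c A)) (cl ax d t (Nat.land H 68719476735)))) n

/-- the clause with `n` literals of 16 bits in `L` -/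
def msk (n : Nat) : Nat → Nat :=
  Nat.rec (motive := fun _ => Nat → Nat) (fun _ => 0)
    (fun _ ih L => Nat.lor (Nat.pow 2 (Nat.land L 65535)) (ih (Nat.shiftRight L 16))) n

/-- run the proof: each step is a number: 8 bits number of literals, 16 bits number of hints, literals, hints -/
noncomputable def run (ax : Nat → Nat) (M d k : Nat) (ps : List Nat) : Tr → Nat → Bool :=
  List.rec (motive := fun _ => Tr → Nat → Bool) (fun _ _ => false)
    (fun N _ ih t i =>
      (fun c : Nat =>
        Bool.rec false (Bool.rec (ih (ins d c k t i) (Nat.succ i)) true (Nat.beq c 0))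
          (up ax M d t (Nat.land (Nat.shiftRight N 8) 65535)
            (Nat.shiftRight N (Nat.add 24 (Nat.mul 16 (Nat.land N 255)))) c))
      (msk (Nat.land N 255) (Nat.shiftRight N 24))) ps

/-! ### soundness -/

/-- all entries satisfy `P` -/
def All (P : Nat → Prop) : Tr → Prop
  | Tr.e => True
  | Tr.n v l r => P v ∧ All P l ∧ All P r

theorem get_all {P : Nat → Prop} {d : Nat} (hd : P d) : ∀ (t : Tr) (_ : All P t) (i : Nat), P (get d t i)
  | Tr.e, _, _ => hd
  | Tr.n v l r, h, i => by
    have h1 := get_all hd l h.2.1 (Nat.shiftRight i 1)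
    have h2 := get_all hd r h.2.2 (Nat.shiftRight i 1)
    show P (Bool.rec (Bool.rec (get d r (Nat.shiftRight i 1)) (get d l (Nat.shiftRight i 1))
      (Nat.beq (Nat.land i 1) 0)) v (Nat.beq i 1))
    cases Nat.beq i 1
    · cases Nat.beq (Nat.land i 1) 0
      · exact h2
      · exact h1
    · exact h.1

theorem ins_all {P : Nat → Prop} {d c : Nat} (hd : P d) (hc : P c) :
    ∀ (k : Nat) (t : Tr) (_ : All P t) (i : Nat), All P (ins d c k t i)
  | 0, t, ht, _ => ht
  | k + 1, t, ht, i => by
    have ih := ins_all hd hc k
    show All P (Bool.rec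
        (Bool.rec
          (Tr.rec (motive := fun _ => Tr) (Tr.n d Tr.e (ins d c k Tr.e (Nat.shiftRight i 1)))
            (fun v l r _ _ => Tr.n v l (ins d c k r (Nat.shiftRight i 1))) t)
          (Tr.rec (motive := fun _ => Tr) (Tr.n d (ins d c k Tr.e (Nat.shiftRight i 1)) Tr.e)
            (fun v l r _ _ => Tr.n v (ins d c k l (Nat.shiftRight i 1)) r) t)
          (Nat.beq (Nat.land i 1) 0))
        (Tr.rec (motive := fun _ => Tr) (Tr.n c Tr.e Tr.e) (fun _ l r _ _ => Tr.n c l r) t)
        (Nat.beq i 1))
    cases Nat.beq i 1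
    · cases Nat.beq (Nat.land i 1) 0
      · cases t with
        | e => exact ⟨hd, trivial, ih Tr.e trivial _⟩
        | n v l r => exact ⟨ht.1, ht.2.1, ih _ ht.2.2 _⟩
      · cases t with
        | e => exact ⟨hd, ih Tr.e trivial _, trivial⟩
        | n v l r => exact ⟨ht.1, ih _ ht.2.1 _, ht.2.2⟩
    · cases t with
      | e => exact ⟨hc, trivial, trivial⟩
      | n v l r => exact ⟨hc, ht.2.1, ht.2.2⟩

theorem cl_all {P : Nat → Prop} {ax : Nat → Nat} {d : Nat} (hax : ∀ c, P (ax c)) (hd : P d) (t : Tr) (ht : All P t)
    (h : Nat) : P (cl ax d t h) := by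
  unfold cl
  cases Nat.beq (Nat.land h 1) 0
  · exact hax _
  · exact get_all hd t ht _

/-- all literals of `A` are false -/
def Fls (M : Nat) (f : Nat → Bool) (A : Nat) : Prop := ∀ j, j < 2 * M → Nat.testBit A j = true → lit M f j = false

theorem lit_neg {M : Nat} {f : Nat → Bool} {j : Nat} (hj : j < M) : lit M f (j + M) = !lit M f j := by
  unfold lit
  rw [if_neg (by omega), if_pos hj, Nat.add_sub_cancel]

theorem single_bit {r j : Nat} (h : Nat.land r (Nat.sub r 1) = 0) (hj : Nat.testBit r j = true) : r = 2 ^ j := by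
  have h' : r &&& (r - 1) = 0 := h
  have hr : r ≠ 0 := by
    rintro rfl
    simp at hj
  obtain ⟨k, hk⟩ := (Nat.and_sub_one_eq_zero_iff_isPowerOfTwo hr).1 h'
  subst hk
  rw [Nat.testBit_two_pow] at hj
  rw [of_decide_eq_true hj]

/-- one propagation step -/
theorem prop_step {M : Nat} {f : Nat → Bool} {A c : Nat} (hA : Fls M f A) (hc : Sat M f c) :
    Nat.xor c (Nat.land c A) ≠ 0 ∧
      (Nat.land (Nat.xor c (Nat.land c A)) (Nat.sub (Nat.xor c (Nat.land c A)) 1) = 0 →
        Fls M f (Nat.lor A (Bool.rec (Nat.shiftRight (Nat.xor c (Nat.land c A)) M)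
          (Nat.shiftLeft (Nat.xor c (Nat.land c A)) M)
          (Nat.beq (Nat.shiftRight (Nat.xor c (Nat.land c A)) M) 0)))) := by
  obtain ⟨j, hj, hcj, hlj⟩ := hc
  have hAj : Nat.testBit A j = false := by
    cases hh : Nat.testBit A j with
    | false => rfl
    | true =>
      have := hA j hj hh
      rw [hlj] at this
      exact absurd this (by decide)
  have hr : Nat.testBit (Nat.xor c (Nat.land c A)) j = true := by
    show Nat.testBit (c ^^^ (c &&& A)) j = true
    rw [Nat.testBit_xor, Nat.testBit_and, hcj, hAj]
    rfl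
  generalize Nat.xor c (Nat.land c A) = r at hr ⊢
  refine ⟨?_, fun h => ?_⟩
  · rintro rfl
    rw [Nat.zero_testBit] at hr
    exact absurd hr (by decide)
  · have hrj := single_bit h hr
    subst hrj
    have key : ∀ B, Fls M f B → Fls M f (Nat.lor A B) := by
      intro B hB i hi hAB
      have : Nat.testBit (A ||| B) i = true := hAB
      rw [Nat.testBit_or, Bool.or_eq_true] at this
      rcases this with h1 | h1
      · exact hA i hi h1
      · exact hB i hi h1
    apply key
    by_cases hjM : j < M
    · have e1 : Nat.shiftRight (2 ^ j) M = 0 := by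
        show (2 ^ j) >>> M = 0
        rw [Nat.shiftRight_eq_div_pow]
        exact Nat.div_eq_of_lt (Nat.pow_lt_pow_right (by omega) hjM)
      rw [e1]
      show Fls M f ((2 ^ j) <<< M)
      rw [Nat.shiftLeft_eq, ← Nat.pow_add]
      intro i _ hi
      rw [Nat.testBit_two_pow] at hi
      rw [← of_decide_eq_true hi, lit_neg hjM, hlj]
      rfl
    · obtain ⟨k, rfl⟩ : ∃ k, j = k + M := ⟨j - M, by omega⟩
      have hk : k < M := by omega
      have e1 : Nat.shiftRight (2 ^ (k + M)) M = 2 ^ k := by
        show (2 ^ (k + M)) >>> M = 2 ^ k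
        rw [Nat.shiftRight_eq_div_pow, Nat.pow_add]
        exact Nat.mul_div_cancel _ (Nat.two_pow_pos M)
      rw [e1]
      have e2 : Nat.beq (2 ^ k) 0 = false := by
        have : 0 < 2 ^ k := Nat.two_pow_pos k
        cases hh : Nat.beq (2 ^ k) 0 with
        | false => rfl
        | true =>
          have := Nat.eq_of_beq_eq_true hh
          omega
      rw [e2]
      show Fls M f (2 ^ k)
      intro i _ hi
      rw [Nat.testBit_two_pow] at hi
      rw [← of_decide_eq_true hi]
      rw [lit_neg hk] at hlj
      cases hh : lit M f k with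
      | false => rfl
      | true =>
        rw [hh] at hlj
        exact absurd hlj (by decide)

theorem up_sound {M : Nat} {f : Nat → Bool} {ax : Nat → Nat} {d : Nat} (hax : ∀ c, Sat M f (ax c)) (hd : Sat M f d)
    (t : Tr) (ht : All (Sat M f) t) : ∀ (n : Nat) (H A : Nat), Fls M f A → up ax M d t n H A = true → False
  | 0, _, A, _, h => by
    have : (false : Bool) = true := h
    exact absurd this (by decide)
  | n + 1, H, A, hA, h => by
    have ih := up_sound hax hd t ht n
    have hc := cl_all hax hd t ht (Nat.land H 68719476735)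
    obtain ⟨h1, h2⟩ := prop_step hA hc
    have h' : (Bool.rec
          (Bool.rec false
            (up ax M d t n (Nat.shiftRight H 36) (Nat.lor A (Bool.rec
              (Nat.shiftRight (Nat.xor (cl ax d t (Nat.land H 68719476735))
                (Nat.land (cl ax d t (Nat.land H 68719476735)) A)) M)
              (Nat.shiftLeft (Nat.xor (cl ax d t (Nat.land H 68719476735))
                (Nat.land (cl ax d t (Nat.land H 68719476735)) A)) M)
              (Nat.beq (Nat.shiftRight (Nat.xor (cl ax d t (Nat.land H 68719476735))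
                (Nat.land (cl ax d t (Nat.land H 68719476735)) A)) M) 0))))
            (Nat.beq (Nat.land (Nat.xor (cl ax d t (Nat.land H 68719476735))
              (Nat.land (cl ax d t (Nat.land H 68719476735)) A))
              (Nat.sub (Nat.xor (cl ax d t (Nat.land H 68719476735))
                (Nat.land (cl ax d t (Nat.land H 68719476735)) A)) 1)) 0))
          true (Nat.beq (Nat.xor (cl ax d t (Nat.land H 68719476735))
            (Nat.land (cl ax d t (Nat.land H 68719476735)) A)) 0) : Bool) = true := h
    generalize Nat.xor (cl ax d t (Nat.land H 68719476735))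
      (Nat.land (cl ax d t (Nat.land H 68719476735)) A) = r at h1 h2 h'
    cases e1 : Nat.beq r 0 with
    | true => exact h1 (Nat.eq_of_beq_eq_true e1)
    | false =>
      rw [e1] at h'
      cases e2 : Nat.beq (Nat.land r (Nat.sub r 1)) 0 with
      | false =>
        rw [e2] at h'
        have : (false : Bool) = true := h'
        exact absurd this (by decide)
      | true =>
        rw [e2] at h'
        exact ih _ _ (h2 (Nat.eq_of_beq_eq_true e2)) h'

theorem learned {M : Nat} {f : Nat → Bool} {ax : Nat → Nat} {d : Nat} (hax : ∀ c, Sat M f (ax c)) (hd : Sat M f d)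
    (t : Tr) (ht : All (Sat M f) t) (n H c : Nat) (h : up ax M d t n H c = true) : Sat M f c := by
  by_contra hc
  refine up_sound hax hd t ht n H c ?_ h
  intro j hj hcj
  cases hh : lit M f j with
  | false => rfl
  | true => exact absurd ⟨j, hj, hcj, hh⟩ hc

theorem run_sound {M : Nat} {f : Nat → Bool} {ax : Nat → Nat} {d k : Nat} (hax : ∀ c, Sat M f (ax c))
    (hd : Sat M f d) : ∀ (ps : List Nat) (t : Tr) (_ : All (Sat M f) t) (i : Nat),
      run ax M d k ps t i = true → False
  | [], t, _, i, h => by
    have : (false : Bool) = true := h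
    exact absurd this (by decide)
  | N :: ps, t, ht, i, h => by
    have ih := run_sound (k := k) hax hd ps
    have h' : (Bool.rec false (Bool.rec (run ax M d k ps
        (ins d (msk (Nat.land N 255) (Nat.shiftRight N 24)) k t i) (Nat.succ i)) true
        (Nat.beq (msk (Nat.land N 255) (Nat.shiftRight N 24)) 0))
      (up ax M d t (Nat.land (Nat.shiftRight N 8) 65535)
            (Nat.shiftRight N (Nat.add 24 (Nat.mul 16 (Nat.land N 255))))
            (msk (Nat.land N 255) (Nat.shiftRight N 24))) : Bool) = true := h
    generalize msk (Nat.land N 255) (Nat.shiftRight N 24) = c at h'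
    cases e1 : up ax M d t (Nat.land (Nat.shiftRight N 8) 65535)
            (Nat.shiftRight N (Nat.add 24 (Nat.mul 16 (Nat.land N 255)))) c with
    | false =>
      rw [e1] at h'
      have : (false : Bool) = true := h'
      exact absurd this (by decide)
    | true =>
      rw [e1] at h'
      have hs := learned hax hd t ht _ _ c e1
      cases e2 : Nat.beq c 0 with
      | true =>
        rw [Nat.eq_of_beq_eq_true e2] at hs
        obtain ⟨j, _, hj, _⟩ := hs
        rw [Nat.zero_testBit] at hj
        exact absurd hj (by decide)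
      | false =>
        rw [e2] at h'
        exact ih _ (ins_all hd hs _ _ ht _) _ h'

theorem sat_default {M : Nat} (hM : 0 < M) (f : Nat → Bool) : Sat M f (2 ^ M + 1) := by
  cases hf : f 0 with
  | true =>
    refine ⟨0, by omega, ?_, ?_⟩
    · rw [Nat.testBit_zero]
      have : 2 ^ M % 2 = 0 := by
        obtain ⟨m, rfl⟩ : ∃ m, M = m + 1 := ⟨M - 1, by omega⟩
        omega
      rw [decide_eq_true_iff]
      omega
    · unfold lit
      rw [if_pos hM, hf]
  | false =>
    refine ⟨M, by omega, ?_, ?_⟩
    · rw [Nat.testBit_two_pow_add_eq]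
      rw [Nat.testBit_lt_two_pow]
      · rfl
      · exact Nat.one_lt_two_pow (by omega)
    · unfold lit
      rw [if_neg (by omega), Nat.sub_self, hf]
      rfl

/-- MAIN: if the refutation `ps` of the axioms `ax` is accepted, then no assignment satisfies all axioms. -/
theorem refute {ax : Nat → Nat} {M : Nat} (hM : 0 < M) (k : Nat) (ps : List Nat)
    (h : run ax M (2 ^ M + 1) k ps Tr.e 1 = true) (f : Nat → Bool) : ¬ ∀ c, Sat M f (ax c) :=
  fun hax => run_sound hax (sat_default hM f) ps Tr.e trivial 1 h

end Pool.Agent.RUP
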