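import Pool.Agent.RUP.Main

/-! Generic interface: refutations of templates for symmetric relations on a type `V` and points `p 0, p 1, ...`.
For relations without ternary part use `r3 := fun _ _ _ _ => False`, `s3 := fun h => h`, `s3' := fun h => h`. -/

set_option autoImplicit false

namespace Pool.Agent.RUP

/-- symmetric relations on a type -/
structure SRel (V : Type) where
  r2 : Nat → V → V → Prop
  r3 : Nat → V → V → V → Prop
  r4 : Nat → V → V → V → V → Prop
  s2 : ∀ {r a b}, r2 r a b → r2 r b a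
  s3 : ∀ {r a b c}, r3 r a b c → r3 r b a c
  s3' : ∀ {r a b c}, r3 r a b c → r3 r a c b
  s4 : ∀ {r a b c d}, r4 r a b c d → r4 r b a c d
  s4' : ∀ {r a b c d}, r4 r a b c d → r4 r c d a b

section
variable {V : Type}

/-- value of an argument: the digit `x` is `d x`, the constant `x ≥ 8` is the point `p (x - 8)` -/
def vl (d p : Nat → V) (x : Nat) : V := match Nat.ble 8 x with
  | true => p (x - 8)
  | false => d x

/-- the literal is false -/
def Lt.ns (S : SRel V) (v : Nat → V) : Lt → Prop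
  | Lt.b true r x y => ¬ S.r2 r (v x) (v y)
  | Lt.b false r x y => S.r2 r (v x) (v y)
  | Lt.t true r x y z => ¬ S.r3 r (v x) (v y) (v z)
  | Lt.t false r x y z => S.r3 r (v x) (v y) (v z)
  | Lt.q true r x y z w => ¬ S.r4 r (v x) (v y) (v z) (v w)
  | Lt.q false r x y z w => S.r4 r (v x) (v y) (v z) (v w)

/-- not all literals are false, as an implication -/
def negs (S : SRel V) (v : Nat → V) : List Lt → Prop
  | [] => False
  | l :: ls => l.ns S v → negs S v ls

/-- conditions on distinctness, as an implication -/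
def neq (v : Nat → V) : List (Nat × Nat) → Prop → Prop
  | [], P => P
  | q :: qs, P => v q.1 ≠ v q.2 → neq v qs P

/-- the template holds for the relations `S` and the points `p 0, ..., p (k - 1)` -/
def PH (S : SRel V) (p : Nat → V) (k : Nat) (t : Tm) : Prop :=
  ∀ d : Nat → V, (∀ i, i < t.nd → ∃ j, j < k ∧ d i = p j) → neq (vl d p) t.ne (negs S (vl d p) t.ls)

/-- all templates of the list hold -/
def PHs (S : SRel V) (p : Nat → V) (k : Nat) : List Tm → Prop
  | [] => True
  | t :: ts => PH S p k t ∧ PHs S p k ts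

theorem PHs.nil {S : SRel V} {p : Nat → V} {k : Nat} : PHs S p k [] := trivial

theorem PHs.cons {S : SRel V} {p : Nat → V} {k : Nat} {t : Tm} {ts : List Tm} (h : PH S p k t) (hs : PHs S p k ts) :
    PHs S p k (t :: ts) := ⟨h, hs⟩

theorem PHs.app {S : SRel V} {p : Nat → V} {k : Nat} : ∀ {ts ts' : List Tm}, PHs S p k ts → PHs S p k ts' →
    PHs S p k (ts ++ ts')
  | [], _, _, h' => h'
  | _ :: _, _, h, h' => ⟨h.1, PHs.app h.2 h'⟩

theorem PHs.mem {S : SRel V} {p : Nat → V} {k : Nat} : ∀ {ts : List Tm}, PHs S p k ts → ∀ t ∈ ts, PH S p k t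
  | [], _, _, ht => absurd ht List.not_mem_nil
  | s :: ts, h, t, ht => by
    rcases List.mem_cons.1 ht with rfl | h1
    · exact h.1
    · exact PHs.mem h.2 t h1

/-- the template holds for all points -/
def UH (S : SRel V) (t : Tm) : Prop := ∀ v : Nat → V, neq v t.ne (negs S v t.ls)

theorem UH.ph {S : SRel V} {t : Tm} (h : UH S t) (p : Nat → V) (k : Nat) : PH S p k t := fun _ _ => h _

/-- all templates of the list hold for all points -/
def UHs (S : SRel V) : List Tm → Prop
  | [] => True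
  | t :: ts => UH S t ∧ UHs S ts

theorem UHs.nil {S : SRel V} : UHs S [] := trivial

theorem UHs.cons {S : SRel V} {t : Tm} {ts : List Tm} (h : UH S t) (hs : UHs S ts) : UHs S (t :: ts) := ⟨h, hs⟩

theorem UHs.app {S : SRel V} : ∀ {ts ts' : List Tm}, UHs S ts → UHs S ts' → UHs S (ts ++ ts')
  | [], _, _, h' => h'
  | _ :: _, _, h, h' => ⟨h.1, UHs.app h.2 h'⟩

theorem UHs.phs {S : SRel V} : ∀ {ts : List Tm}, UHs S ts → ∀ (p : Nat → V) (k : Nat), PHs S p k ts
  | [], _, _, _ => trivial
  | _ :: _, h, p, k => ⟨h.1.ph p k, UHs.phs h.2 p k⟩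

open Classical in
/-- the relations on the points -/
noncomputable def relS (S : SRel V) (p : Nat → V) : Rel where
  R2 r a b := decide (S.r2 r (p a) (p b))
  R3 r a b c := decide (S.r3 r (p a) (p b) (p c))
  R4 r a b c d := decide (S.r4 r (p a) (p b) (p c) (p d))
  s2 _ _ _ := decide_eq_decide.2 ⟨S.s2, S.s2⟩
  s3 _ _ _ _ := decide_eq_decide.2 ⟨S.s3, S.s3⟩
  s3' _ _ _ _ := decide_eq_decide.2 ⟨S.s3', S.s3'⟩
  s4 _ _ _ _ _ := decide_eq_decide.2 ⟨S.s4, S.s4⟩
  s4' _ _ _ _ _ := decide_eq_decide.2 ⟨S.s4', S.s4'⟩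

theorem neq_elim {v : Nat → V} {P : Prop} : ∀ {qs : List (Nat × Nat)}, neq v qs P → (∀ q ∈ qs, v q.1 ≠ v q.2) → P
  | [], h, _ => h
  | q :: qs, h, hq => neq_elim (qs := qs) (h (hq q (List.mem_cons_self ..))) fun r hr => hq r (List.mem_cons_of_mem _ hr)

theorem negs_elim {S : SRel V} {v : Nat → V} : ∀ {ls : List Lt}, negs S v ls → ∃ l ∈ ls, ¬ l.ns S v
  | [], h => h.elim
  | l :: ls, h => by
    by_cases hl : l.ns S v
    · obtain ⟨m, h1, h2⟩ := negs_elim (ls := ls) (h hl)
      exact ⟨m, List.mem_cons_of_mem _ h1, h2⟩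
    · exact ⟨l, List.mem_cons_self .., hl⟩

theorem vl_eq (p : Nat → V) (δ : Nat → Nat) (x : Nat) : vl (fun i => p (δ i)) p x = p (argv δ x) := by
  unfold vl argv
  by_cases h : x ≤ 7
  · rw [if_pos h]
    have : Nat.ble 8 x = false := by
      cases hh : Nat.ble 8 x with
      | false => rfl
      | true =>
        have := Nat.le_of_ble_eq_true hh
        omega
    rw [this]
  · rw [if_neg h]
    have : Nat.ble 8 x = true := Nat.ble_eq_true_of_le (by omega)
    rw [this]

theorem val_of_ns {S : SRel V} {p : Nat → V} {δ : Nat → Nat} {l : Lt} (h : ¬ l.ns S (vl (fun i => p (δ i)) p)) :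
    l.val (relS S p) δ = true := by
  classical
  cases l with
  | b sg r x y =>
    cases sg <;> simp only [Lt.ns, vl_eq] at h <;> simp only [Lt.val, relS, sgv] <;> simpa using h
  | t sg r x y z =>
    cases sg <;> simp only [Lt.ns, vl_eq] at h <;> simp only [Lt.val, relS, sgv] <;> simpa using h
  | q sg r x y z w =>
    cases sg <;> simp only [Lt.ns, vl_eq] at h <;> simp only [Lt.val, relS, sgv] <;> simpa using h

/-- the arguments in the conditions on distinctness are in range -/
def wfn (k : Nat) (ts : List Tm) : Bool := ts.all fun t => t.ne.all fun q => wfa k t.nd q.1 && wfa k t.nd q.2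

theorem argv_lt {k nd : Nat} {δ : Nat → Nat} (hd : ∀ i, i < nd → argv δ i < k) {x : Nat} (h : wfa k nd x = true) :
    argv δ x < k := by
  unfold wfa at h
  rw [Bool.or_eq_true, Bool.and_eq_true] at h
  rcases h with h | ⟨h1, h2⟩
  · exact hd _ (blt_lt h)
  · have h3 := Nat.le_of_ble_eq_true h1
    have h4 := blt_lt h2
    unfold argv
    rw [if_neg (by omega)]
    exact h4

theorem holds_of_PH {S : SRel V} {p : Nat → V} {k : Nat} (hp : ∀ i j, i < k → j < k → p i = p j → i = j) {t : Tm}
    (hnd : t.nd ≤ 8) (hne : (t.ne.all fun q => wfa k t.nd q.1 && wfa k t.nd q.2) = true) (h : PH S p k t) :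
    Holds k (relS S p) t := by
  intro δ hδ _ hq
  have hd : ∀ i, i < t.nd → ∃ j, j < k ∧ (fun i => p (δ i)) i = p j := by
    intro i hi
    have h1 := hδ i hi
    have h2 : argv δ i = δ i := if_pos (by omega)
    rw [h2] at h1
    exact ⟨δ i, h1, rfl⟩
  have h1 := neq_elim (h (fun i => p (δ i)) hd) (by
    intro q hqm
    rw [vl_eq, vl_eq]
    have h2 := List.all_eq_true.1 hne q hqm
    rw [Bool.and_eq_true] at h2
    intro he
    exact hq q hqm (hp _ _ (argv_lt hδ h2.1) (argv_lt hδ h2.2) he))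
  obtain ⟨l, hl, hn⟩ := negs_elim h1
  exact ⟨l, hl, val_of_ns hn⟩

/-- MAIN THEOREM of this file: an accepted refutation shows that no symmetric relations on different points satisfy
all templates. -/
theorem refuteS {k n2 n3 n4 o3 o4 M : Nat} (ts : List Tm) (ps : List Nat) (hw : wf k n2 n3 n4 ts = true)
    (hw' : wfn k ts = true)
    (hn : (Nat.ble (n2 * tri k) o3 && (Nat.ble (o3 + n3 * tet k) o4 && (Nat.ble (o4 + n4 * tri (tri k)) M &&
      Nat.ble 1 M))) = true)
    (h : run (axT k n2 n3 n4 o3 o4 M (2 ^ M + 1) ts) M (2 ^ M + 1) 20 ps Tr.e 1 = true) {S : SRel V} {p : Nat → V}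
    (hp : ∀ i j, i < k → j < k → p i = p j → i = j) (hts : PHs S p k ts) : False := by
  refine refuteT ts ps hw hn h (relS S p) ?_
  intro t ht
  have h1 := List.all_eq_true.1 hw t ht
  rw [Bool.and_eq_true] at h1
  exact holds_of_PH hp (Nat.le_of_ble_eq_true h1.1) (List.all_eq_true.1 hw' t ht) (hts.mem t ht)

/-- the points of a list -/
def pt : List V → V → Nat → V
  | [], o, _ => o
  | a :: _, _, 0 => a
  | _ :: l, o, i + 1 => pt l o i

theorem pt_eq : ∀ (l : List V) (o : V) (i : Nat), pt l o i = l.getD i o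
  | [], _, i => by simp [pt]
  | a :: l, o, 0 => rfl
  | a :: l, o, i + 1 => by
    show pt l o i = _
    rw [pt_eq l o i, List.getD_cons_succ]

theorem pt_mem : ∀ {l : List V} {o : V} {x : V}, x ∈ l → ∃ j, j < l.length ∧ x = pt l o j
  | [], _, _, h => absurd h List.not_mem_nil
  | a :: l, o, x, h => by
    rcases List.mem_cons.1 h with rfl | h1
    · exact ⟨0, Nat.succ_pos _, rfl⟩
    · obtain ⟨j, h2, h3⟩ := pt_mem (o := o) h1
      exact ⟨j + 1, Nat.succ_lt_succ h2, h3⟩

theorem mem_pt : ∀ {l : List V} {o : V} {j : Nat}, j < l.length → pt l o j ∈ l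
  | [], _, _, h => absurd h (Nat.not_lt_zero _)
  | _ :: _, _, 0, _ => List.mem_cons_self ..
  | _ :: l, _, _ + 1, h => List.mem_cons_of_mem _ (mem_pt (l := l) (Nat.lt_of_succ_lt_succ h))

theorem pt_inj {l : List V} {o : V} (h : l.Nodup) {k : Nat} (hk : l.length = k) :
    ∀ i j, i < k → j < k → pt l o i = pt l o j → i = j := by
  intro i j hi hj he
  rw [pt_eq, pt_eq, List.getD_eq_getElem _ _ (by omega), List.getD_eq_getElem _ _ (by omega)] at he
  exact (List.Nodup.getElem_inj_iff h).1 he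

end

end Pool.Agent.RUP
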