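import Pool.Agent.RUP.Sem

/-! The main theorem: an accepted refutation of templates shows that no symmetric relations satisfy them. -/

set_option autoImplicit false

namespace Pool.Agent.RUP

section
variable {k n2 n3 n4 o3 o4 M : Nat}

theorem ble_dec (a b : Nat) : Nat.ble a b = decide (a ≤ b) := by
  cases h : Nat.ble a b with
  | true => exact (decide_eq_true (Nat.le_of_ble_eq_true h)).symm
  | false =>
    symm
    rw [decide_eq_false_iff_not]
    intro hc
    rw [Nat.ble_eq_true_of_le hc] at h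
    exact absurd h (by decide)

theorem beq_dec (a b : Nat) : Nat.beq a b = decide (a = b) := by
  cases h : Nat.beq a b with
  | true => exact (decide_eq_true (Nat.eq_of_beq_eq_true h)).symm
  | false =>
    symm
    rw [decide_eq_false_iff_not]
    rintro rfl
    have : Nat.beq a a = true := Nat.beq_refl a
    rw [this] at h
    exact absurd h (by decide)

theorem blt_lt {a b : Nat} (h : Nat.blt a b = true) : a < b := by
  rwa [Nat.blt_eq] at h

/-- the digits of a code -/
def dg (g i : Nat) : Nat := Nat.land (Nat.shiftRight g (Nat.mul 4 i)) 15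

theorem arg_eq (g x : Nat) : arg g x = argv (dg g) x := by
  unfold arg argv
  rw [ble_dec]
  by_cases h : x ≤ 7
  · rw [decide_eq_true h, if_pos h]
    rfl
  · rw [decide_eq_false h, if_neg h]
    rfl

theorem okd_spec {k g : Nat} : ∀ {n : Nat}, okd k g n = true → ∀ i, i < n → arg g i < k
  | 0, _, i, hi => absurd hi (by omega)
  | n + 1, h, i, hi => by
    have h' : (Bool.rec false (okd k g n) (Nat.ble (Nat.add (arg g n) 1) k) : Bool) = true := h
    rw [ble_dec] at h'
    by_cases hc : Nat.add (arg g n) 1 ≤ k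
    · rw [decide_eq_true hc] at h'
      rcases Nat.lt_succ_iff_lt_or_eq.1 hi with h1 | h1
      · exact okd_spec (n := n) h' i h1
      · rw [h1]
        exact hc
    · rw [decide_eq_false hc] at h'
      exact Bool.noConfusion h'

theorem oklt_spec {g : Nat} : ∀ {ps : List (Nat × Nat)}, oklt g ps = true → ∀ p ∈ ps, arg g p.1 < arg g p.2
  | [], _, p, hp => absurd hp (List.not_mem_nil)
  | q :: ps, h, p, hp => by
    have h' : (Bool.rec false (oklt g ps) (Nat.ble (Nat.add (arg g q.1) 1) (arg g q.2)) : Bool) = true := h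
    rw [ble_dec] at h'
    by_cases hc : Nat.add (arg g q.1) 1 ≤ arg g q.2
    · rw [decide_eq_true hc] at h'
      rcases List.mem_cons.1 hp with h1 | h1
      · rw [h1]
        exact hc
      · exact oklt_spec (ps := ps) h' p h1
    · rw [decide_eq_false hc] at h'
      exact Bool.noConfusion h'

theorem okne_spec {g : Nat} : ∀ {ps : List (Nat × Nat)}, okne g ps = true → ∀ p ∈ ps, arg g p.1 ≠ arg g p.2
  | [], _, p, hp => absurd hp (List.not_mem_nil)
  | q :: ps, h, p, hp => by
    have h' : (Bool.rec (okne g ps) false (Nat.beq (arg g q.1) (arg g q.2)) : Bool) = true := h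
    rw [beq_dec] at h'
    by_cases hc : arg g q.1 = arg g q.2
    · rw [decide_eq_true hc] at h'
      exact Bool.noConfusion h'
    · rw [decide_eq_false hc] at h'
      rcases List.mem_cons.1 hp with h1 | h1
      · rw [h1]
        exact hc
      · exact okne_spec (ps := ps) h' p h1

/-- the ground atom and sign of a literal -/
def Lt.at (g : Nat) : Lt → At
  | Lt.b _ r x y => At.b r (arg g x) (arg g y)
  | Lt.t _ r x y z => At.t r (arg g x) (arg g y) (arg g z)
  | Lt.q _ r x y z w => At.q r (arg g x) (arg g y) (arg g z) (arg g w)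

/-- sign -/
def Lt.sg : Lt → Bool
  | Lt.b s _ _ _ => s
  | Lt.t s _ _ _ _ => s
  | Lt.q s _ _ _ _ _ => s

theorem Lt.val_eq (R : Rel) (g : Nat) (l : Lt) : l.val R (dg g) = sgv l.sg ((l.at g).val R) := by
  cases l <;> simp only [Lt.val, Lt.sg, Lt.at, At.val, arg_eq]

theorem idx_eq (g : Nat) (l : Lt) :
    idx n2 n3 n4 o3 o4 M g l = (if l.sg = true then 0 else M) + (l.at g).ix n2 n3 n4 o3 o4 := by
  cases l with
  | b s r x y => cases s <;> rfl
  | t s r x y z => cases s <;> rfl
  | q s r x y z w => cases s <;> rfl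

/-- the assignment -/
noncomputable def asg (k n2 n3 n4 o3 o4 : Nat) (R : Rel) (i : Nat) : Bool :=
  open Classical in decide (∃ x : At, x.Ok k n2 n3 n4 ∧ x.ix n2 n3 n4 o3 o4 = i ∧ x.val R = true)

theorem asg_eq (h3 : n2 * tri k ≤ o3) (h4 : o3 + n3 * tet k ≤ o4) (R : Rel) {x : At} (hx : x.Ok k n2 n3 n4) :
    asg k n2 n3 n4 o3 o4 R (x.ix n2 n3 n4 o3 o4) = x.val R := by
  classical
  unfold asg
  cases h : x.val R with
  | true => exact decide_eq_true (p := ∃ y : At, y.Ok k n2 n3 n4 ∧ y.ix n2 n3 n4 o3 o4 = x.ix n2 n3 n4 o3 o4 ∧ y.val R = true) ⟨x, hx, rfl, h⟩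
  | false =>
    rw [decide_eq_false_iff_not]
    rintro ⟨y, hy, he, hv⟩
    rw [At.inj h3 h4 R hy hx he, h] at hv
    exact absurd hv (by decide)

theorem ix_lt (h3 : n2 * tri k ≤ o3) (h4 : o3 + n3 * tet k ≤ o4) (h5 : o4 + n4 * tri (tri k) ≤ M) {x : At}
    (hx : x.Ok k n2 n3 n4) : x.ix n2 n3 n4 o3 o4 < M := by
  cases x with
  | b r a b =>
    have := mix_lt hx.1 (pe_lt hx.2.1 hx.2.2)
    simp only [At.ix]
    omega
  | t r a b c =>
    have := mix_lt hx.1 (te_lt hx.2.1 hx.2.2.1 hx.2.2.2)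
    simp only [At.ix]
    omega
  | q r a b c d =>
    have := mix_lt hx.1 (pe_lt (pe_lt hx.2.1 hx.2.2.1) (pe_lt hx.2.2.2.1 hx.2.2.2.2))
    simp only [At.ix]
    omega

theorem wfa_spec {nd g x : Nat} (hd : ∀ i, i < nd → arg g i < k) (h : wfa k nd x = true) : arg g x < k := by
  unfold wfa at h
  rw [Bool.or_eq_true, Bool.and_eq_true] at h
  rcases h with h | ⟨h1, h2⟩
  · exact hd _ (blt_lt h)
  · have h3 := Nat.le_of_ble_eq_true h1
    have h4 := blt_lt h2
    rw [arg_eq]
    unfold argv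
    rw [if_neg (by omega)]
    exact h4

theorem wfl_spec {nd g : Nat} (hd : ∀ i, i < nd → arg g i < k) {l : Lt} (h : wfl k n2 n3 n4 nd l = true) :
    (l.at g).Ok k n2 n3 n4 := by
  cases l with
  | b s r x y =>
    simp only [wfl, Bool.and_eq_true] at h
    exact ⟨blt_lt h.1, wfa_spec hd h.2.1, wfa_spec hd h.2.2⟩
  | t s r x y z =>
    simp only [wfl, Bool.and_eq_true] at h
    exact ⟨blt_lt h.1, wfa_spec hd h.2.1, wfa_spec hd h.2.2.1, wfa_spec hd h.2.2.2⟩
  | q s r x y z w =>
    simp only [wfl, Bool.and_eq_true] at h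
    exact ⟨blt_lt h.1, wfa_spec hd h.2.1, wfa_spec hd h.2.2.1, wfa_spec hd h.2.2.2.1, wfa_spec hd h.2.2.2.2⟩

theorem cls_sat (h3 : n2 * tri k ≤ o3) (h4 : o3 + n3 * tet k ≤ o4) (h5 : o4 + n4 * tri (tri k) ≤ M) (R : Rel)
    {nd g : Nat} (hd : ∀ i, i < nd → arg g i < k) : ∀ (ls : List Lt) (_ : ∀ l ∈ ls, wfl k n2 n3 n4 nd l = true)
      (_ : ∃ l ∈ ls, l.val R (dg g) = true), Sat M (asg k n2 n3 n4 o3 o4 R) (cls n2 n3 n4 o3 o4 M g ls)
  | [], _, h => by
    obtain ⟨l, hl, _⟩ := h
    exact absurd hl List.not_mem_nil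
  | l :: ls, hw, h => by
    have e : cls n2 n3 n4 o3 o4 M g (l :: ls) = 2 ^ (idx n2 n3 n4 o3 o4 M g l) ||| cls n2 n3 n4 o3 o4 M g ls := rfl
    rw [e]
    by_cases hl : l.val R (dg g) = true
    · have hok := wfl_spec (g := g) hd (hw l (List.mem_cons_self ..))
      have hlt := ix_lt h3 h4 h5 hok
      refine ⟨idx n2 n3 n4 o3 o4 M g l, ?_, ?_, ?_⟩
      · rw [idx_eq]
        split <;> omega
      · rw [Nat.testBit_or, Nat.testBit_two_pow_self]
        rfl
      · rw [idx_eq]
        rw [Lt.val_eq] at hl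
        unfold lit
        by_cases hs : l.sg = true
        · rw [if_pos hs, Nat.zero_add, if_pos hlt, asg_eq h3 h4 R hok]
          rw [hs] at hl
          exact hl
        · rw [if_neg hs, if_neg (by omega), Nat.add_sub_cancel_left, asg_eq h3 h4 R hok]
          have : l.sg = false := by simpa using hs
          rw [this] at hl
          exact hl
    · obtain ⟨l', hl', hv⟩ := h
      rcases List.mem_cons.1 hl' with h1 | h1
      · rw [h1] at hv
        exact absurd hv hl
      · obtain ⟨j, j1, j2, j3⟩ := cls_sat h3 h4 h5 R hd ls (fun l hl => hw l (List.mem_cons_of_mem _ hl)) ⟨l', h1, hv⟩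
        refine ⟨j, j1, ?_, j3⟩
        rw [Nat.testBit_or, j2, Bool.or_true]

theorem tcl_sat (h3 : n2 * tri k ≤ o3) (h4 : o3 + n3 * tet k ≤ o4) (h5 : o4 + n4 * tri (tri k) ≤ M) (R : Rel)
    {d : Nat} (hd : Sat M (asg k n2 n3 n4 o3 o4 R) d) (g : Nat) (t : Tm)
    (hw : Nat.ble t.nd 8 = true ∧ t.ls.all (wfl k n2 n3 n4 t.nd) = true) (ht : Holds k R t) :
    Sat M (asg k n2 n3 n4 o3 o4 R) (tcl k n2 n3 n4 o3 o4 M d g t) := by
  obtain ⟨nd, lt, ne, ls⟩ := t
  show Sat M (asg k n2 n3 n4 o3 o4 R) (Bool.rec d (Bool.rec d (Bool.rec d (cls n2 n3 n4 o3 o4 M g ls) (okne g ne))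
    (oklt g lt)) (okd k g nd))
  cases e1 : okd k g nd with
  | false => exact hd
  | true =>
    cases e2 : oklt g lt with
    | false => exact hd
    | true =>
      cases e3 : okne g ne with
      | false => exact hd
      | true =>
        refine cls_sat h3 h4 h5 R (okd_spec e1) ls (List.all_eq_true.1 hw.2) (ht (dg g) ?_ ?_ ?_)
        · intro i hi
          rw [← arg_eq]
          exact okd_spec e1 i hi
        · intro p hp
          rw [← arg_eq, ← arg_eq]
          exact oklt_spec e2 p hp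
        · intro p hp
          rw [← arg_eq, ← arg_eq]
          exact okne_spec e3 p hp

theorem nth_sat (h3 : n2 * tri k ≤ o3) (h4 : o3 + n3 * tet k ≤ o4) (h5 : o4 + n4 * tri (tri k) ≤ M) (R : Rel)
    {d : Nat} (hd : Sat M (asg k n2 n3 n4 o3 o4 R) d) (g : Nat) : ∀ (ts : List Tm) (_ : wf k n2 n3 n4 ts = true)
      (_ : ∀ t ∈ ts, Holds k R t) (i : Nat),
      Sat M (asg k n2 n3 n4 o3 o4 R) (nth d (tcl k n2 n3 n4 o3 o4 M d g) ts i)
  | [], _, _, _ => hd
  | t :: ts, hw, ht, i => by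
    unfold wf at hw
    rw [List.all_cons, Bool.and_eq_true, Bool.and_eq_true] at hw
    cases i with
    | zero => exact tcl_sat h3 h4 h5 R hd g t hw.1 (ht t (List.mem_cons_self ..))
    | succ i => exact nth_sat h3 h4 h5 R hd g ts hw.2 (fun t h => ht t (List.mem_cons_of_mem _ h)) i

/-- MAIN THEOREM: no symmetric relations satisfy all templates. -/
theorem refuteT (ts : List Tm) (ps : List Nat) (hw : wf k n2 n3 n4 ts = true)
    (hn : (Nat.ble (n2 * tri k) o3 && (Nat.ble (o3 + n3 * tet k) o4 && (Nat.ble (o4 + n4 * tri (tri k)) M &&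
      Nat.ble 1 M))) = true)
    (h : run (axT k n2 n3 n4 o3 o4 M (2 ^ M + 1) ts) M (2 ^ M + 1) 20 ps Tr.e 1 = true) (R : Rel) :
    ¬ ∀ t ∈ ts, Holds k R t := by
  simp only [Bool.and_eq_true] at hn
  have h3 := Nat.le_of_ble_eq_true hn.1
  have h4 := Nat.le_of_ble_eq_true hn.2.1
  have h5 := Nat.le_of_ble_eq_true hn.2.2.1
  have h6 := Nat.le_of_ble_eq_true hn.2.2.2
  intro ht
  exact refute h6 20 ps h (asg k n2 n3 n4 o3 o4 R) fun c =>
    nth_sat h3 h4 h5 R (sat_default h6 _) _ ts hw ht _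

end

end Pool.Agent.RUP
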