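import Pool.Agent.RUP.Tmpl
import Mathlib.Tactic
import Mathlib.Data.Nat.Choose.Basic
import Mathlib.Data.Nat.Factorial.BigOperators

/-! Semantics of the templates. -/

set_option autoImplicit false

namespace Pool.Agent.RUP

/-! ### indices -/

theorem tri_eq (v : Nat) : 2 * tri v = v * (v + 1) := by
  show 2 * ((v * (v + 1)) >>> 1) = _
  rw [Nat.shiftRight_eq_div_pow, pow_one]
  exact Nat.two_mul_div_two_of_even (Nat.even_mul_succ_self v)

theorem tri_succ (v : Nat) : tri (v + 1) = tri v + v + 1 := by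
  have h1 := tri_eq v
  have h2 := tri_eq (v + 1)
  nlinarith

theorem tri_mono {u v : Nat} (h : u ≤ v) : tri u ≤ tri v := by
  induction v, h using Nat.le_induction with
  | base => exact le_rfl
  | succ n _ ih => rw [tri_succ]; omega

theorem mn_eq (u v : Nat) : mn u v = min u v := by
  show (Bool.rec v u (Nat.ble u v) : Nat) = _
  cases h : Nat.ble u v with
  | true => rw [Nat.min_eq_left (Nat.le_of_ble_eq_true h)]
  | false =>
    rw [Nat.min_eq_right]
    by_contra hc
    rw [Nat.ble_eq_true_of_le (by omega)] at h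
    exact absurd h (by decide)

theorem mx_eq (u v : Nat) : mx u v = max u v := by
  show (Bool.rec u v (Nat.ble u v) : Nat) = _
  cases h : Nat.ble u v with
  | true => rw [Nat.max_eq_right (Nat.le_of_ble_eq_true h)]
  | false =>
    rw [Nat.max_eq_left]
    by_contra hc
    rw [Nat.ble_eq_true_of_le (by omega)] at h
    exact absurd h (by decide)

theorem pe_eq (u v : Nat) : pe u v = min u v + tri (max u v) := by
  show (Bool.rec (v + tri u) (u + tri v) (Nat.ble u v) : Nat) = _
  cases h : Nat.ble u v with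
  | true =>
    rw [Nat.max_eq_right (Nat.le_of_ble_eq_true h), Nat.min_eq_left (Nat.le_of_ble_eq_true h)]
  | false =>
    have : v < u := by
      by_contra hc
      rw [Nat.ble_eq_true_of_le (by omega)] at h
      exact absurd h (by decide)
    rw [Nat.max_eq_left this.le, Nat.min_eq_right this.le]

theorem pair_inj {a b a' b' : Nat} (h : a ≤ b) (h' : a' ≤ b') (he : a + tri b = a' + tri b') : a = a' ∧ b = b' := by
  have hb : b = b' := by
    rcases Nat.lt_trichotomy b b' with h1 | h1 | h1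
    · have := tri_mono (Nat.succ_le_of_lt h1)
      rw [Nat.succ_eq_add_one, tri_succ] at this
      omega
    · exact h1
    · have := tri_mono (Nat.succ_le_of_lt h1)
      rw [Nat.succ_eq_add_one, tri_succ] at this
      omega
  subst hb
  exact ⟨by omega, rfl⟩

theorem pe_inj {u v u' v' : Nat} (h : pe u v = pe u' v') : (u = u' ∧ v = v') ∨ (u = v' ∧ v = u') := by
  rw [pe_eq, pe_eq] at h
  obtain ⟨h1, h2⟩ := pair_inj (min_le_max) (min_le_max) h
  omega

theorem pe_lt {u v k : Nat} (hu : u < k) (hv : v < k) : pe u v < tri k := by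
  rw [pe_eq]
  have h1 : max u v + 1 ≤ k := by omega
  have h2 := tri_mono h1
  rw [tri_succ] at h2
  omega

/-- tetrahedral numbers -/
def tet (m : Nat) : Nat := m * ((m + 1) * (m + 2)) / 6

theorem tet_eq (m : Nat) : 6 * tet m = m * (m + 1) * (m + 2) := by
  unfold tet
  have h : 6 ∣ m * ((m + 1) * (m + 2)) := by
    induction m with
    | zero => exact ⟨0, rfl⟩
    | succ n ih =>
      obtain ⟨c, hc⟩ := ih
      have h2 := tri_eq (n + 1)
      refine ⟨c + tri (n + 1), ?_⟩
      nlinarith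
  rw [Nat.mul_div_cancel' h]
  ring

theorem tet_succ (m : Nat) : tet (m + 1) = tet m + tri (m + 1) := by
  have h1 := tet_eq m
  have h2 := tet_eq (m + 1)
  have h3 := tri_eq (m + 1)
  nlinarith

theorem tet_mono {u v : Nat} (h : u ≤ v) : tet u ≤ tet v := by
  induction v, h using Nat.le_induction with
  | base => exact le_rfl
  | succ n _ ih => rw [tet_succ]; omega

/-- sorting three numbers -/
theorem te_sort (u v w : Nat) : ∃ n c m : Nat, n ≤ c ∧ c ≤ m ∧ te u v w = (n + tri c) + tet m ∧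
    (n = u ∨ n = v ∨ n = w) ∧ (c = u ∨ c = v ∨ c = w) ∧ (m = u ∨ m = v ∨ m = w) ∧
    ∀ F : Nat → Nat → Nat → Bool, (∀ a b c, F a b c = F b a c) → (∀ a b c, F a b c = F a c b) →
      F u v w = F n c m := by
  have key : ∀ n c m : Nat, n ≤ c → c ≤ m → min u (min v w) = n → max u (max v w) = m → u + (v + w) = n + c + m →
      te u v w = (n + tri c) + tet m := by
    intro n c m h1 h2 h3 h4 h5
    show mn u (mn v w) + (tri (u + (v + w) - (mx u (mx v w) + mn u (mn v w))) +
      (mx u (mx v w) * ((mx u (mx v w) + 1) * (mx u (mx v w) + 2))) / 6) = _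
    rw [mn_eq, mn_eq, mx_eq, mx_eq, h3, h4, h5]
    have : n + c + m - (m + n) = c := by omega
    rw [this]
    unfold tet
    omega
  rcases Nat.le_total u v with h1 | h1 <;> rcases Nat.le_total v w with h2 | h2 <;>
    rcases Nat.le_total u w with h3 | h3
  · exact ⟨u, v, w, h1, h2, key u v w h1 h2 (by omega) (by omega) (by omega), by simp, by simp, by simp,
      fun F f1 f2 => rfl⟩
  · exact ⟨u, v, w, h1, h2, key u v w h1 h2 (by omega) (by omega) (by omega), by simp, by simp, by simp,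
      fun F f1 f2 => rfl⟩
  · exact ⟨u, w, v, h3, h2, key u w v h3 h2 (by omega) (by omega) (by omega), by simp, by simp, by simp,
      fun F f1 f2 => f2 _ _ _⟩
  · exact ⟨w, u, v, h3, h1, key w u v h3 h1 (by omega) (by omega) (by omega), by simp, by simp, by simp,
      fun F f1 f2 => by rw [f2 u v w, f1 u w v]⟩
  · exact ⟨v, u, w, h1, h3, key v u w h1 h3 (by omega) (by omega) (by omega), by simp, by simp, by simp,
      fun F f1 f2 => f1 _ _ _⟩
  · exact ⟨v, w, u, h2, h3, key v w u h2 h3 (by omega) (by omega) (by omega), by simp, by simp, by simp,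
      fun F f1 f2 => by rw [f1 u v w, f2 v u w]⟩
  · exact ⟨w, v, u, h2, h1, key w v u h2 h1 (by omega) (by omega) (by omega), by simp, by simp, by simp,
      fun F f1 f2 => by rw [f1 u v w, f2 v u w, f1 v w u]⟩
  · exact ⟨w, v, u, h2, h1, key w v u h2 h1 (by omega) (by omega) (by omega), by simp, by simp, by simp,
      fun F f1 f2 => by rw [f1 u v w, f2 v u w, f1 v w u]⟩

theorem sorted_inj {n c m n' c' m' : Nat} (a3 : n ≤ c) (a1 : c ≤ m) (a4 : n' ≤ c') (a2 : c' ≤ m')
    (h : (n + tri c) + tet m = (n' + tri c') + tet m') : n = n' ∧ c = c' ∧ m = m' := by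
  have hmm : m = m' := by
    rcases Nat.lt_trichotomy m m' with h1 | h1 | h1
    · have t1 := tet_mono (Nat.succ_le_of_lt h1)
      rw [Nat.succ_eq_add_one, tet_succ, tri_succ] at t1
      have t2 := tri_mono a1
      omega
    · exact h1
    · have t1 := tet_mono (Nat.succ_le_of_lt h1)
      rw [Nat.succ_eq_add_one, tet_succ, tri_succ] at t1
      have t2 := tri_mono a2
      omega
  subst hmm
  obtain ⟨h1, h2⟩ := pair_inj a3 a4 (by omega : n + tri c = n' + tri c')
  exact ⟨h1, h2, rfl⟩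

theorem te_inj {u v w u' v' w' : Nat} (h : te u v w = te u' v' w') (F : Nat → Nat → Nat → Bool)
    (f1 : ∀ a b c, F a b c = F b a c) (f2 : ∀ a b c, F a b c = F a c b) : F u v w = F u' v' w' := by
  obtain ⟨n, c, m, h1, h2, h3, _, _, _, h4⟩ := te_sort u v w
  obtain ⟨n', c', m', h1', h2', h3', _, _, _, h4'⟩ := te_sort u' v' w'
  rw [h3, h3'] at h
  obtain ⟨rfl, rfl, rfl⟩ := sorted_inj h1 h2 h1' h2' h
  rw [h4 F f1 f2, h4' F f1 f2]

theorem te_lt {u v w k : Nat} (hu : u < k) (hv : v < k) (hw : w < k) : te u v w < tet k := by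
  obtain ⟨n, c, m, h1, h2, h3, _, _, h5, _⟩ := te_sort u v w
  rw [h3]
  have hm : m < k := by
    rcases h5 with rfl | rfl | rfl <;> assumption
  have e1 := tet_mono (Nat.succ_le_of_lt hm)
  rw [Nat.succ_eq_add_one, tet_succ, tri_succ] at e1
  have e2 := tri_mono h2
  omega

/-! ### relations -/

/-- a family of symmetric relations on the natural numbers -/
structure Rel where
  R2 : Nat → Nat → Nat → Bool
  R3 : Nat → Nat → Nat → Nat → Bool
  R4 : Nat → Nat → Nat → Nat → Nat → Bool
  s2 : ∀ r a b, R2 r a b = R2 r b a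
  s3 : ∀ r a b c, R3 r a b c = R3 r b a c
  s3' : ∀ r a b c, R3 r a b c = R3 r a c b
  s4 : ∀ r a b c d, R4 r a b c d = R4 r b a c d
  s4' : ∀ r a b c d, R4 r a b c d = R4 r c d a b

/-- argument -/
def argv (δ : Nat → Nat) (x : Nat) : Nat := if x ≤ 7 then δ x else x - 8

/-- sign -/
def sgv (sg v : Bool) : Bool := if sg then v else !v

/-- value of a literal -/
def Lt.val (R : Rel) (δ : Nat → Nat) : Lt → Bool
  | Lt.b sg r x y => sgv sg (R.R2 r (argv δ x) (argv δ y))
  | Lt.t sg r x y z => sgv sg (R.R3 r (argv δ x) (argv δ y) (argv δ z))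
  | Lt.q sg r x y z w => sgv sg (R.R4 r (argv δ x) (argv δ y) (argv δ z) (argv δ w))

/-- the template holds, for points `< k` -/
def Holds (k : Nat) (R : Rel) (t : Tm) : Prop :=
  ∀ δ : Nat → Nat, (∀ i, i < t.nd → argv δ i < k) → (∀ p ∈ t.lt, argv δ p.1 < argv δ p.2) →
    (∀ p ∈ t.ne, argv δ p.1 ≠ argv δ p.2) → ∃ l ∈ t.ls, l.val R δ = true

/-- well-formed argument -/
def wfa (k nd x : Nat) : Bool := Nat.blt x nd || (Nat.ble 8 x && Nat.blt (x - 8) k)

/-- well-formed literal -/
def wfl (k n2 n3 n4 nd : Nat) : Lt → Bool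
  | Lt.b _ r a b => Nat.blt r n2 && (wfa k nd a && wfa k nd b)
  | Lt.t _ r a b c => Nat.blt r n3 && (wfa k nd a && (wfa k nd b && wfa k nd c))
  | Lt.q _ r a b c d => Nat.blt r n4 && (wfa k nd a && (wfa k nd b && (wfa k nd c && wfa k nd d)))

/-- well-formed list of templates -/
def wf (k n2 n3 n4 : Nat) (ts : List Tm) : Bool := ts.all fun t => Nat.ble t.nd 8 && t.ls.all (wfl k n2 n3 n4 t.nd)

section
variable {k n2 n3 n4 o3 o4 M : Nat}

/-- ground atoms -/
inductive At : Type
  | b (r a b : Nat) : At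
  | t (r a b c : Nat) : At
  | q (r a b c d : Nat) : At

/-- value of an atom -/
def At.val (R : Rel) : At → Bool
  | At.b r x y => R.R2 r x y
  | At.t r x y z => R.R3 r x y z
  | At.q r x y z w => R.R4 r x y z w

/-- index of an atom -/
def At.ix (n2 n3 n4 o3 o4 : Nat) : At → Nat
  | At.b r x y => r + n2 * pe x y
  | At.t r x y z => o3 + (r + n3 * te x y z)
  | At.q r x y z w => o4 + (r + n4 * pe (pe x y) (pe z w))

/-- the atom is in range -/
def At.Ok (k n2 n3 n4 : Nat) : At → Prop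
  | At.b r x y => r < n2 ∧ x < k ∧ y < k
  | At.t r x y z => r < n3 ∧ x < k ∧ y < k ∧ z < k
  | At.q r x y z w => r < n4 ∧ x < k ∧ y < k ∧ z < k ∧ w < k

theorem mix_lt {r n c K : Nat} (hr : r < n) (hc : c < K) : r + n * c < n * K := by
  have : n * (c + 1) ≤ n * K := Nat.mul_le_mul_left n hc
  rw [Nat.mul_add, Nat.mul_one] at this
  omega

theorem mix_inj {r r' n c c' : Nat} (hr : r < n) (hr' : r' < n) (h : r + n * c = r' + n * c') : r = r' ∧ c = c' := by
  have h1 : (r + n * c) % n = r := by rw [Nat.add_mul_mod_self_left, Nat.mod_eq_of_lt hr]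
  have h2 : (r' + n * c') % n = r' := by rw [Nat.add_mul_mod_self_left, Nat.mod_eq_of_lt hr']
  have h3 : r = r' := by rw [← h1, ← h2, h]
  subst h3
  refine ⟨rfl, Nat.eq_of_mul_eq_mul_left (by omega : 0 < n) (by omega)⟩

theorem At.inj (h3 : n2 * tri k ≤ o3) (h4 : o3 + n3 * tet k ≤ o4) (R : Rel) {x y : At} (hx : x.Ok k n2 n3 n4)
    (hy : y.Ok k n2 n3 n4) (h : x.ix n2 n3 n4 o3 o4 = y.ix n2 n3 n4 o3 o4) : x.val R = y.val R := by
  cases x with
  | b r a b =>
    have e1 := mix_lt hx.1 (pe_lt hx.2.1 hx.2.2)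
    cases y with
    | b r' a' b' =>
      obtain ⟨rfl, hp⟩ := mix_inj hx.1 hy.1 h
      rcases pe_inj hp with ⟨rfl, rfl⟩ | ⟨rfl, rfl⟩
      · rfl
      · exact R.s2 _ _ _
    | t r' a' b' c' => simp only [At.ix] at h; omega
    | q r' a' b' c' d' => simp only [At.ix] at h; omega
  | t r a b c =>
    have e1 := mix_lt hx.1 (te_lt hx.2.1 hx.2.2.1 hx.2.2.2)
    cases y with
    | b r' a' b' =>
      have e2 := mix_lt hy.1 (pe_lt hy.2.1 hy.2.2)
      simp only [At.ix] at h
      omega
    | t r' a' b' c' =>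
      simp only [At.ix] at h
      obtain ⟨rfl, hp⟩ := mix_inj hx.1 hy.1 (by omega : r + n3 * te a b c = r' + n3 * te a' b' c')
      exact te_inj hp (R.R3 r) (R.s3 r) (R.s3' r)
    | q r' a' b' c' d' => simp only [At.ix] at h; omega
  | q r a b c d =>
    have e1 := hx.2
    cases y with
    | b r' a' b' =>
      have e2 := mix_lt hy.1 (pe_lt hy.2.1 hy.2.2)
      simp only [At.ix] at h
      omega
    | t r' a' b' c' =>
      have e2 := mix_lt hy.1 (te_lt hy.2.1 hy.2.2.1 hy.2.2.2)
      simp only [At.ix] at h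
      omega
    | q r' a' b' c' d' =>
      simp only [At.ix] at h
      obtain ⟨rfl, hp⟩ := mix_inj hx.1 hy.1
        (by omega : r + n4 * pe (pe a b) (pe c d) = r' + n4 * pe (pe a' b') (pe c' d'))
      show R.R4 r a b c d = R.R4 r a' b' c' d'
      rcases pe_inj hp with ⟨q1, q2⟩ | ⟨q1, q2⟩
      · rcases pe_inj q1 with ⟨rfl, rfl⟩ | ⟨rfl, rfl⟩ <;> rcases pe_inj q2 with ⟨rfl, rfl⟩ | ⟨rfl, rfl⟩
        · rfl
        · rw [R.s4' r a b c d, R.s4 r c d a b, R.s4' r d c a b]
        · exact R.s4 _ _ _ _ _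
        · rw [R.s4 r a b c d, R.s4' r b a c d, R.s4 r c d b a, R.s4' r d c b a]
      · rcases pe_inj q1 with ⟨rfl, rfl⟩ | ⟨rfl, rfl⟩ <;> rcases pe_inj q2 with ⟨rfl, rfl⟩ | ⟨rfl, rfl⟩
        · exact R.s4' _ _ _ _ _
        · rw [R.s4' r a b c d, R.s4 r c d a b]
        · rw [R.s4 r a b c d, R.s4' r b a c d]
        · rw [R.s4 r a b c d, R.s4' r b a c d, R.s4 r c d b a]

end

end Pool.Agent.RUP
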