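import Pool.Agent.RUP.Main
import Pool.Agent.SOD.Defs
import Pool.Agent.SOC.Orders

/-! The templates of the local theory of strict outerconfluent structures. -/

set_option autoImplicit false

namespace Pool.Agent.RUP

open Pool.Agent.SOC Pool.Agent.SOD

/-- all pairs of `n ≤ 6` digits -/
def ad4 : List (Nat × Nat) := [(0, 1), (0, 2), (0, 3), (1, 2), (1, 3), (2, 3)]
/-- all pairs -/
def ad5 : List (Nat × Nat) := [(0, 1), (0, 2), (0, 3), (0, 4), (1, 2), (1, 3), (1, 4), (2, 3), (2, 4), (3, 4)]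
/-- all pairs -/
def ad6 : List (Nat × Nat) := [(0, 1), (0, 2), (0, 3), (0, 4), (0, 5), (1, 2), (1, 3), (1, 4), (1, 5), (2, 3), (2, 4),
  (2, 5), (3, 4), (3, 5), (4, 5)]

/-- cyclic order number `i`: the relation `R4 (2 i)` says that the chords cross -/
def orderT (i : Nat) : List Tm := [
  ⟨4, [], ad4, [.q true (2 * i) 0 1 2 3, .q true (2 * i) 0 2 1 3, .q true (2 * i) 0 3 1 2]⟩,
  ⟨4, [], ad4, [.q false (2 * i) 0 1 2 3, .q false (2 * i) 0 2 1 3]⟩,
  ⟨5, [], ad5, [.q false (2 * i) 0 1 2 3, .q false (2 * i) 0 1 3 4, .q false (2 * i) 0 1 2 4]⟩,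
  ⟨5, [], ad5, [.q false (2 * i) 0 1 2 3, .q true (2 * i) 0 1 3 4, .q true (2 * i) 0 1 2 4]⟩]

/-- quartets number `i`: the relation `R4 (2 i + 1)`; `R2 0` is adjacency -/
def validT (i : Nat) : List Tm := [
  ⟨4, [], ad4, [.q false (2 * i + 1) 0 1 2 3, .q false (2 * i) 0 1 2 3]⟩,
  ⟨4, [], ad4, [.q false (2 * i + 1) 0 1 2 3, .b true 0 0 2]⟩,
  ⟨4, [], ad4, [.b false 0 0 1, .b false 0 2 3, .q false (2 * i) 0 1 2 3, .q true (2 * i + 1) 0 2 1 3,
    .q true (2 * i + 1) 0 3 1 2]⟩,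
  ⟨4, [], ad4, [.q false (2 * i + 1) 0 1 2 3, .q false (2 * i + 1) 0 2 1 3]⟩,
  ⟨5, [], ad5, [.q false (2 * i + 1) 0 1 2 3, .q false (2 * i + 1) 0 1 3 4, .q true (2 * i + 1) 0 1 2 4]⟩,
  ⟨5, [], ad5, [.q false (2 * i + 1) 0 1 2 3, .q false (2 * i + 1) 0 3 2 4, .q true (2 * i + 1) 0 1 2 4]⟩,
  ⟨6, [], ad6, [.q false (2 * i + 1) 0 1 2 3, .q false (2 * i + 1) 0 4 2 5, .q true (2 * i + 1) 0 1 2 5,
    .q true (2 * i + 1) 0 4 2 3]⟩]

/-- axioms of a separation relation (crossing chords of a cyclic order) -/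
structure Sepr {V : Type} (X : V → V → V → V → Prop) : Prop where
  swap : ∀ {a b c d}, X a b c d → X b a c d
  comm : ∀ {a b c d}, X a b c d → X c d a b
  dist : ∀ {a b c d}, X a b c d → a ≠ b ∧ a ≠ c
  one : ∀ {a b c d}, a ≠ b → a ≠ c → a ≠ d → b ≠ c → b ≠ d → c ≠ d → X a b c d ∨ X a c b d ∨ X a d b c
  amo : ∀ {a b c d}, X a b c d → ¬ X a c b d
  add : ∀ {a b c d e}, X a b c d → X a b d e → ¬ X a b c e
  add2 : ∀ {a b c d e}, X a b c d → d ≠ e → c ≠ e → a ≠ e → b ≠ e → X a b d e ∨ X a b c e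

section
variable {V : Type} {G : SimpleGraph V}

open Classical in
/-- the relations of several structures `(X i, T i)` on the points `p 0, p 1, ...` -/
noncomputable def relOf (p : Nat → V) (E : V → V → Prop) (X T : Nat → V → V → V → V → Prop)
    (B : Nat → Nat → Nat → Prop)
    (hE : ∀ a b, E a b → E b a)
    (hX : ∀ i a b c d, X i a b c d → X i b a c d ∧ X i c d a b)
    (hT : ∀ i a b c d, T i a b c d → T i b a c d ∧ T i c d a b)
    (hB : ∀ i a b, B i a b → B i b a) : Rel where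
  R2 r a b := match r with
    | 0 => decide (E (p a) (p b))
    | r + 1 => decide (B r a b)
  R3 _ _ _ _ := false
  R4 r a b c d := if r % 2 = 0 then decide (X (r / 2) (p a) (p b) (p c) (p d))
    else decide (T (r / 2) (p a) (p b) (p c) (p d))
  s2 r a b := by
    cases r with
    | zero => exact decide_eq_decide.2 ⟨hE _ _, hE _ _⟩
    | succ r => exact decide_eq_decide.2 ⟨hB _ _ _, hB _ _ _⟩
  s3 _ _ _ _ := rfl
  s3' _ _ _ _ := rfl
  s4 r a b c d := by
    by_cases h : r % 2 = 0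
    · rw [if_pos h, if_pos h]
      exact decide_eq_decide.2 ⟨fun h => (hX _ _ _ _ _ h).1, fun h => (hX _ _ _ _ _ h).1⟩
    · rw [if_neg h, if_neg h]
      exact decide_eq_decide.2 ⟨fun h => (hT _ _ _ _ _ h).1, fun h => (hT _ _ _ _ _ h).1⟩
  s4' r a b c d := by
    by_cases h : r % 2 = 0
    · rw [if_pos h, if_pos h]
      exact decide_eq_decide.2 ⟨fun h => (hX _ _ _ _ _ h).2, fun h => (hX _ _ _ _ _ h).2⟩
    · rw [if_neg h, if_neg h]
      exact decide_eq_decide.2 ⟨fun h => (hT _ _ _ _ _ h).2, fun h => (hT _ _ _ _ _ h).2⟩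


variable {p : Nat → V} {E : V → V → Prop} {X T : Nat → V → V → V → V → Prop} {B : Nat → Nat → Nat → Prop}
  {hE : ∀ a b, E a b → E b a}
  {hX : ∀ i a b c d, X i a b c d → X i b a c d ∧ X i c d a b}
  {hT : ∀ i a b c d, T i a b c d → T i b a c d ∧ T i c d a b}
  {hB : ∀ i a b, B i a b → B i b a}

theorem val_E (δ : Nat → Nat) (sg : Bool) (x y : Nat) (hx : x ≤ 7) (hy : y ≤ 7) :
    (Lt.b sg 0 x y).val (relOf p E X T B hE hX hT hB) δ = true ↔ (sg = true ↔ E (p (δ x)) (p (δ y))) := by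
  classical
  show sgv sg (decide (E (p (argv δ x)) (p (argv δ y)))) = true ↔ _
  unfold argv sgv
  rw [if_pos hx, if_pos hy]
  cases sg <;> simp

theorem val_X (δ : Nat → Nat) (sg : Bool) (i x y z w : Nat) (hx : x ≤ 7) (hy : y ≤ 7) (hz : z ≤ 7) (hw : w ≤ 7) :
    (Lt.q sg (2 * i) x y z w).val (relOf p E X T B hE hX hT hB) δ = true ↔
      (sg = true ↔ X i (p (δ x)) (p (δ y)) (p (δ z)) (p (δ w))) := by
  classical
  show sgv sg (if (2 * i) % 2 = 0 then decide (X (2 * i / 2) (p (argv δ x)) (p (argv δ y)) (p (argv δ z)) (p (argv δ w)))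
    else decide (T (2 * i / 2) (p (argv δ x)) (p (argv δ y)) (p (argv δ z)) (p (argv δ w)))) = true ↔ _
  have h1 : (2 * i) % 2 = 0 := by omega
  have h2 : (2 * i) / 2 = i := by omega
  rw [if_pos h1, h2]
  unfold argv sgv
  rw [if_pos hx, if_pos hy, if_pos hz, if_pos hw]
  cases sg <;> simp

theorem val_T (δ : Nat → Nat) (sg : Bool) (i x y z w : Nat) (hx : x ≤ 7) (hy : y ≤ 7) (hz : z ≤ 7) (hw : w ≤ 7) :
    (Lt.q sg (2 * i + 1) x y z w).val (relOf p E X T B hE hX hT hB) δ = true ↔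
      (sg = true ↔ T i (p (δ x)) (p (δ y)) (p (δ z)) (p (δ w))) := by
  classical
  show sgv sg (if (2 * i + 1) % 2 = 0 then
    decide (X ((2 * i + 1) / 2) (p (argv δ x)) (p (argv δ y)) (p (argv δ z)) (p (argv δ w)))
    else decide (T ((2 * i + 1) / 2) (p (argv δ x)) (p (argv δ y)) (p (argv δ z)) (p (argv δ w)))) = true ↔ _
  have h1 : ¬ (2 * i + 1) % 2 = 0 := by omega
  have h2 : (2 * i + 1) / 2 = i := by omega
  rw [if_neg h1, h2]
  unfold argv sgv
  rw [if_pos hx, if_pos hy, if_pos hz, if_pos hw]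
  cases sg <;> simp

theorem pt_ne {k n : Nat} (hp : ∀ a b, a < k → b < k → a ≠ b → p a ≠ p b) {δ : Nat → Nat}
    (hd : ∀ i, i < n → argv δ i < k) {l : List (Nat × Nat)} (hne : ∀ q ∈ l, argv δ q.1 ≠ argv δ q.2) {x y : Nat}
    (hx : x < n) (hy : y < n) (hx' : x ≤ 7) (hy' : y ≤ 7) (hm : (x, y) ∈ l) : p (δ x) ≠ p (δ y) := by
  have e : ∀ z, z ≤ 7 → argv δ z = δ z := fun z hz => if_pos hz
  have h1 := hne (x, y) hm
  simp only at h1
  rw [e x hx', e y hy'] at h1
  have h2 := hd x hx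
  have h3 := hd y hy
  rw [e x hx'] at h2
  rw [e y hy'] at h3
  exact hp _ _ h2 h3 h1

theorem orderT_holds {k : Nat} (hp : ∀ a b, a < k → b < k → a ≠ b → p a ≠ p b) (i : Nat) (h : Sepr (X i)) :
    ∀ t ∈ orderT i, Holds k (relOf p E X T B hE hX hT hB) t := by
  intro t ht
  unfold orderT at ht
  simp only [List.mem_cons, List.not_mem_nil, or_false] at ht
  rcases ht with rfl | rfl | rfl | rfl
  · intro δ hd _ hne
    have d : ∀ x y, x < 4 → y < 4 → (x, y) ∈ ad4 → p (δ x) ≠ p (δ y) := fun x y hx hy hm =>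
      pt_ne hp hd hne hx hy (by omega) (by omega) hm
    rcases h.one (d 0 1 (by omega) (by omega) (by decide)) (d 0 2 (by omega) (by omega) (by decide))
      (d 0 3 (by omega) (by omega) (by decide)) (d 1 2 (by omega) (by omega) (by decide))
      (d 1 3 (by omega) (by omega) (by decide)) (d 2 3 (by omega) (by omega) (by decide)) with h1 | h1 | h1
    · exact ⟨_, by simp, (val_X δ true i 0 1 2 3 (by omega) (by omega) (by omega) (by omega)).2 ⟨fun _ => h1, fun _ => rfl⟩⟩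
    · exact ⟨Lt.q true (2 * i) 0 2 1 3, by simp, (val_X δ true i 0 2 1 3 (by omega) (by omega) (by omega) (by omega)).2 ⟨fun _ => h1, fun _ => rfl⟩⟩
    · exact ⟨Lt.q true (2 * i) 0 3 1 2, by simp, (val_X δ true i 0 3 1 2 (by omega) (by omega) (by omega) (by omega)).2 ⟨fun _ => h1, fun _ => rfl⟩⟩
  · intro δ hd _ hne
    by_cases h1 : X i (p (δ 0)) (p (δ 1)) (p (δ 2)) (p (δ 3))
    · refine ⟨Lt.q false (2 * i) 0 2 1 3, by simp, (val_X δ false i 0 2 1 3 (by omega) (by omega) (by omega) (by omega)).2 ?_⟩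
      exact ⟨fun e => absurd e (by decide), fun e => absurd e (h.amo h1)⟩
    · refine ⟨Lt.q false (2 * i) 0 1 2 3, by simp, (val_X δ false i 0 1 2 3 (by omega) (by omega) (by omega) (by omega)).2 ?_⟩
      exact ⟨fun e => absurd e (by decide), fun e => absurd e h1⟩
  · intro δ hd _ hne
    by_cases h1 : X i (p (δ 0)) (p (δ 1)) (p (δ 2)) (p (δ 3))
    · by_cases h2 : X i (p (δ 0)) (p (δ 1)) (p (δ 3)) (p (δ 4))
      · refine ⟨Lt.q false (2 * i) 0 1 2 4, by simp, (val_X δ false i 0 1 2 4 (by omega) (by omega) (by omega) (by omega)).2 ?_⟩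
        exact ⟨fun e => absurd e (by decide), fun e => absurd e (h.add h1 h2)⟩
      · refine ⟨Lt.q false (2 * i) 0 1 3 4, by simp, (val_X δ false i 0 1 3 4 (by omega) (by omega) (by omega) (by omega)).2 ?_⟩
        exact ⟨fun e => absurd e (by decide), fun e => absurd e h2⟩
    · refine ⟨Lt.q false (2 * i) 0 1 2 3, by simp, (val_X δ false i 0 1 2 3 (by omega) (by omega) (by omega) (by omega)).2 ?_⟩
      exact ⟨fun e => absurd e (by decide), fun e => absurd e h1⟩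
  · intro δ hd _ hne
    have d : ∀ x y, x < 5 → y < 5 → (x, y) ∈ ad5 → p (δ x) ≠ p (δ y) := fun x y hx hy hm =>
      pt_ne hp hd hne hx hy (by omega) (by omega) hm
    by_cases h1 : X i (p (δ 0)) (p (δ 1)) (p (δ 2)) (p (δ 3))
    · rcases h.add2 h1 (d 3 4 (by omega) (by omega) (by decide)) (d 2 4 (by omega) (by omega) (by decide))
        (d 0 4 (by omega) (by omega) (by decide)) (d 1 4 (by omega) (by omega) (by decide)) with h2 | h2
      · exact ⟨Lt.q true (2 * i) 0 1 3 4, by simp, (val_X δ true i 0 1 3 4 (by omega) (by omega) (by omega) (by omega)).2 ⟨fun _ => h2, fun _ => rfl⟩⟩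
      · exact ⟨Lt.q true (2 * i) 0 1 2 4, by simp, (val_X δ true i 0 1 2 4 (by omega) (by omega) (by omega) (by omega)).2 ⟨fun _ => h2, fun _ => rfl⟩⟩
    · refine ⟨Lt.q false (2 * i) 0 1 2 3, by simp, (val_X δ false i 0 1 2 3 (by omega) (by omega) (by omega) (by omega)).2 ?_⟩
      exact ⟨fun e => absurd e (by decide), fun e => absurd e h1⟩

theorem validT_holds {k : Nat} (hp : ∀ a b, a < k → b < k → a ≠ b → p a ≠ p b) (i : Nat)
    {G : SimpleGraph V} (hG : ∀ a b, E a b ↔ G.Adj a b) (h : QT G (X i) (T i)) :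
    ∀ t ∈ validT i, Holds k (relOf p E X T B hE hX hT hB) t := by
  intro t ht
  unfold validT at ht
  simp only [List.mem_cons, List.not_mem_nil, or_false] at ht
  have tt : ∀ (δ : Nat → Nat) (x y z w : Nat), x ≤ 7 → y ≤ 7 → z ≤ 7 → w ≤ 7 →
      T i (p (δ x)) (p (δ y)) (p (δ z)) (p (δ w)) →
      (Lt.q true (2 * i + 1) x y z w).val (relOf p E X T B hE hX hT hB) δ = true := fun δ x y z w hx hy hz hw h =>
    (val_T δ true i x y z w hx hy hz hw).2 ⟨fun _ => h, fun _ => rfl⟩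
  have tf : ∀ (δ : Nat → Nat) (x y z w : Nat), x ≤ 7 → y ≤ 7 → z ≤ 7 → w ≤ 7 →
      ¬ T i (p (δ x)) (p (δ y)) (p (δ z)) (p (δ w)) →
      (Lt.q false (2 * i + 1) x y z w).val (relOf p E X T B hE hX hT hB) δ = true := fun δ x y z w hx hy hz hw h =>
    (val_T δ false i x y z w hx hy hz hw).2 ⟨fun e => absurd e (by decide), fun e => absurd e h⟩
  have xf : ∀ (δ : Nat → Nat) (x y z w : Nat), x ≤ 7 → y ≤ 7 → z ≤ 7 → w ≤ 7 →
      ¬ X i (p (δ x)) (p (δ y)) (p (δ z)) (p (δ w)) →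
      (Lt.q false (2 * i) x y z w).val (relOf p E X T B hE hX hT hB) δ = true := fun δ x y z w hx hy hz hw h =>
    (val_X δ false i x y z w hx hy hz hw).2 ⟨fun e => absurd e (by decide), fun e => absurd e h⟩
  have et : ∀ (δ : Nat → Nat) (x y : Nat), x ≤ 7 → y ≤ 7 → G.Adj (p (δ x)) (p (δ y)) →
      (Lt.b true 0 x y).val (relOf p E X T B hE hX hT hB) δ = true := fun δ x y hx hy h =>
    (val_E δ true x y hx hy).2 ⟨fun _ => (hG _ _).2 h, fun _ => rfl⟩
  have ef : ∀ (δ : Nat → Nat) (x y : Nat), x ≤ 7 → y ≤ 7 → ¬ G.Adj (p (δ x)) (p (δ y)) →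
      (Lt.b false 0 x y).val (relOf p E X T B hE hX hT hB) δ = true := fun δ x y hx hy h =>
    (val_E δ false x y hx hy).2 ⟨fun e => absurd e (by decide), fun e => absurd ((hG _ _).1 e) h⟩
  rcases ht with rfl | rfl | rfl | rfl | rfl | rfl | rfl
  · intro δ hd _ hne
    by_cases h1 : T i (p (δ 0)) (p (δ 1)) (p (δ 2)) (p (δ 3))
    · exact ⟨_, by simp, xf δ 0 1 2 3 (by omega) (by omega) (by omega) (by omega) (h.nocross h1)⟩
    · exact ⟨_, by simp, tf δ 0 1 2 3 (by omega) (by omega) (by omega) (by omega) h1⟩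
  · intro δ hd _ hne
    by_cases h1 : T i (p (δ 0)) (p (δ 1)) (p (δ 2)) (p (δ 3))
    · exact ⟨_, by simp, et δ 0 2 (by omega) (by omega) (h.adj h1)⟩
    · exact ⟨_, by simp, tf δ 0 1 2 3 (by omega) (by omega) (by omega) (by omega) h1⟩
  · intro δ hd _ hne
    have d : ∀ x y, x < 4 → y < 4 → (x, y) ∈ ad4 → p (δ x) ≠ p (δ y) := fun x y hx hy hm =>
      pt_ne hp hd hne hx hy (by omega) (by omega) hm
    by_cases h1 : G.Adj (p (δ 0)) (p (δ 1))
    · by_cases h2 : G.Adj (p (δ 2)) (p (δ 3))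
      · by_cases h3 : X i (p (δ 0)) (p (δ 1)) (p (δ 2)) (p (δ 3))
        · rcases h.some h1 h2 (d 0 2 (by omega) (by omega) (by decide)) (d 0 3 (by omega) (by omega) (by decide))
            (d 1 2 (by omega) (by omega) (by decide)).symm (d 1 3 (by omega) (by omega) (by decide)) h3 with h4 | h4
          · exact ⟨_, by simp, tt δ 0 2 1 3 (by omega) (by omega) (by omega) (by omega) h4⟩
          · exact ⟨_, by simp, tt δ 0 3 1 2 (by omega) (by omega) (by omega) (by omega)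
              (h.swap₂ (h.swap₁ (h.swap₂ h4)))⟩
        · exact ⟨_, by simp, xf δ 0 1 2 3 (by omega) (by omega) (by omega) (by omega) h3⟩
      · exact ⟨_, by simp, ef δ 2 3 (by omega) (by omega) h2⟩
    · exact ⟨_, by simp, ef δ 0 1 (by omega) (by omega) h1⟩
  · intro δ hd _ hne
    by_cases h1 : T i (p (δ 0)) (p (δ 1)) (p (δ 2)) (p (δ 3))
    · refine ⟨Lt.q false (2 * i + 1) 0 2 1 3, by simp, tf δ 0 2 1 3 (by omega) (by omega) (by omega) (by omega) ?_⟩
      intro h2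
      exact h.notboth (h.swap₂ (h.swap₁ (h.swap₂ h2))) h1
    · exact ⟨_, by simp, tf δ 0 1 2 3 (by omega) (by omega) (by omega) (by omega) h1⟩
  · intro δ hd _ hne
    have d : ∀ x y, x < 5 → y < 5 → (x, y) ∈ ad5 → p (δ x) ≠ p (δ y) := fun x y hx hy hm =>
      pt_ne hp hd hne hx hy (by omega) (by omega) hm
    by_cases h1 : T i (p (δ 0)) (p (δ 1)) (p (δ 2)) (p (δ 3))
    · by_cases h2 : T i (p (δ 0)) (p (δ 1)) (p (δ 3)) (p (δ 4))
      · exact ⟨_, by simp, tt δ 0 1 2 4 (by omega) (by omega) (by omega) (by omega)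
          (h.trans h1 h2 (d 2 4 (by omega) (by omega) (by decide)))⟩
      · exact ⟨_, by simp, tf δ 0 1 3 4 (by omega) (by omega) (by omega) (by omega) h2⟩
    · exact ⟨_, by simp, tf δ 0 1 2 3 (by omega) (by omega) (by omega) (by omega) h1⟩
  · intro δ hd _ hne
    by_cases h1 : T i (p (δ 0)) (p (δ 1)) (p (δ 2)) (p (δ 3))
    · by_cases h2 : T i (p (δ 0)) (p (δ 3)) (p (δ 2)) (p (δ 4))
      · refine ⟨_, by simp, tt δ 0 1 2 4 (by omega) (by omega) (by omega) (by omega) ?_⟩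
        rcases h.ferrers h1 h2 with h3 | h3
        · exact h3
        · exact absurd (h.adj (h.swap₁ h3)) (fun e => by
            have := h.adj (h.swap₂ (h.swap₁ (h.swap₂ (h.swap₁ h3))))
            exact absurd this (G.loopless.irrefl _))
      · exact ⟨_, by simp, tf δ 0 3 2 4 (by omega) (by omega) (by omega) (by omega) h2⟩
    · exact ⟨_, by simp, tf δ 0 1 2 3 (by omega) (by omega) (by omega) (by omega) h1⟩
  · intro δ hd _ hne
    by_cases h1 : T i (p (δ 0)) (p (δ 1)) (p (δ 2)) (p (δ 3))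
    · by_cases h2 : T i (p (δ 0)) (p (δ 4)) (p (δ 2)) (p (δ 5))
      · rcases h.ferrers h1 h2 with h3 | h3
        · exact ⟨_, by simp, tt δ 0 1 2 5 (by omega) (by omega) (by omega) (by omega) h3⟩
        · exact ⟨Lt.q true (2 * i + 1) 0 4 2 3, by simp, tt δ 0 4 2 3 (by omega) (by omega) (by omega) (by omega) h3⟩
      · exact ⟨_, by simp, tf δ 0 4 2 5 (by omega) (by omega) (by omega) (by omega) h2⟩
    · exact ⟨_, by simp, tf δ 0 1 2 3 (by omega) (by omega) (by omega) (by omega) h1⟩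

end

/-- the chords cross, and the four points are different -/
def CrD {V : Type} [DecidableEq V] (s : List V) (a b c d : V) : Prop :=
  (a ≠ b ∧ a ≠ c ∧ a ≠ d ∧ b ≠ c ∧ b ≠ d ∧ c ≠ d) ∧ Cross s a b c d

theorem crD_sepr {V : Type} [DecidableEq V] {s : List V} (hs : IsEnum s) : Sepr (CrD s) where
  swap := by
    rintro a b c d ⟨⟨h1, h2, h3, h4, h5, h6⟩, h⟩
    refine ⟨⟨h1.symm, h4, h5, h2, h3, h6⟩, ?_⟩
    unfold Cross SOC.Btw at h ⊢
    omega
  comm := by
    rintro a b c d ⟨⟨h1, h2, h3, h4, h5, h6⟩, h⟩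
    exact ⟨⟨h6, h2.symm, h4.symm, h3.symm, h5.symm, h1⟩, (cross_comm hs h2 h3 h4 h5).1 h⟩
  dist := fun h => ⟨h.1.1, h.1.2.1⟩
  one := by
    intro a b c d h1 h2 h3 h4 h5 h6
    by_cases x : Cross s a b c d
    · exact Or.inl ⟨⟨h1, h2, h3, h4, h5, h6⟩, x⟩
    · by_cases y : Cross s a c b d
      · exact Or.inr (Or.inl ⟨⟨h2, h1, h3, h4.symm, h6, h5⟩, y⟩)
      · refine Or.inr (Or.inr ⟨⟨h3, h1, h2, h5.symm, h6.symm, h4⟩, ?_⟩)
        have i1 := idx_ne hs h1
        have i2 := idx_ne hs h2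
        have i3 := idx_ne hs h3
        have i4 := idx_ne hs h4
        have i5 := idx_ne hs h5
        have i6 := idx_ne hs h6
        unfold Cross SOC.Btw at x y ⊢
        omega
  amo := by
    rintro a b c d ⟨⟨h1, h2, h3, h4, h5, h6⟩, x⟩ ⟨_, y⟩
    have i1 := idx_ne hs h1
    have i2 := idx_ne hs h2
    have i3 := idx_ne hs h3
    have i4 := idx_ne hs h4
    have i5 := idx_ne hs h5
    have i6 := idx_ne hs h6
    unfold Cross SOC.Btw at x y
    omega
  add := by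
    rintro a b c d e ⟨_, x⟩ ⟨_, y⟩ ⟨_, z⟩
    unfold Cross at x y z
    tauto
  add2 := by
    rintro a b c d e ⟨⟨h1, h2, h3, h4, h5, h6⟩, x⟩ g1 g2 g3 g4
    by_cases y : Cross s a b d e
    · exact Or.inl ⟨⟨h1, h3, g3, h5, g4, g1⟩, y⟩
    · refine Or.inr ⟨⟨h1, h2, g3, h4, g4, g2⟩, ?_⟩
      unfold Cross at x y ⊢
      tauto

theorem qt_crD {V : Type} [DecidableEq V] {G : SimpleGraph V} {s : List V} {T : V → V → V → V → Prop}
    (h : QT G (Cross s) T) : QT G (CrD s) T where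
  swap₁ := h.swap₁
  swap₂ := h.swap₂
  ne := h.ne
  adj := h.adj
  nocross := fun ht hc => h.nocross ht hc.2
  some := fun h1 h2 h3 h4 h5 h6 hc => h.some h1 h2 h3 h4 h5 h6 hc.2
  notboth := h.notboth
  trans := h.trans
  ferrers := h.ferrers

end Pool.Agent.RUP
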