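import Pool.Agent.RUP.Check

/-! Universal clauses (templates) over points `0..k-1`, with symmetric binary relations `R2 r`, symmetric ternary
relations `R3 r` and quaternary relations `R4 r` with the symmetries of a pair of pairs. -/

set_option autoImplicit false

namespace Pool.Agent.RUP

/-- literal: sign, kind, number of the relation, arguments (`x < 8`: digit `x`; `x ≥ 8`: the point `x - 8`) -/
inductive Lt : Type
  | b (sg : Bool) (r a b : Nat) : Lt
  | t (sg : Bool) (r a b c : Nat) : Lt
  | q (sg : Bool) (r a b c d : Nat) : Lt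

/-- template: number of digits, pairs of digits which must be `<`, pairs which must be different, literals -/
structure Tm where
  nd : Nat
  lt : List (Nat × Nat)
  ne : List (Nat × Nat)
  ls : List Lt

/-- triangular numbers -/
def tri (v : Nat) : Nat := Nat.shiftRight (Nat.mul v (Nat.add v 1)) 1

/-- index of an unordered pair -/
def pe (u v : Nat) : Nat :=
  Bool.rec (Nat.add v (tri u)) (Nat.add u (tri v)) (Nat.ble u v)

/-- minimum -/
def mn (u v : Nat) : Nat := Bool.rec v u (Nat.ble u v)

/-- maximum -/
def mx (u v : Nat) : Nat := Bool.rec u v (Nat.ble u v)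

/-- index of an unordered triple -/
def te (u v w : Nat) : Nat :=
  (fun m n : Nat => Nat.add n (Nat.add (tri (Nat.sub (Nat.add u (Nat.add v w)) (Nat.add m n)))
    (Nat.div (Nat.mul m (Nat.mul (Nat.add m 1) (Nat.add m 2))) 6))) (mx u (mx v w)) (mn u (mn v w))

/-- argument -/
def arg (g x : Nat) : Nat :=
  Bool.rec (Nat.sub x 8) (Nat.land (Nat.shiftRight g (Nat.mul 4 x)) 15) (Nat.ble x 7)

/-- index of the literal; `n2`, `n3`, `n4` numbers of relations, `o3`, `o4` offsets, `M` number of variables -/
noncomputable def idx (n2 n3 n4 o3 o4 M g : Nat) (l : Lt) : Nat :=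
  Lt.rec (motive := fun _ => Nat)
    (fun sg r a b => Nat.add (Bool.rec M 0 sg) (Nat.add r (Nat.mul n2 (pe (arg g a) (arg g b)))))
    (fun sg r a b c => Nat.add (Bool.rec M 0 sg) (Nat.add o3 (Nat.add r (Nat.mul n3 (te (arg g a) (arg g b) (arg g c))))))
    (fun sg r a b c d => Nat.add (Bool.rec M 0 sg)
      (Nat.add o4 (Nat.add r (Nat.mul n4 (pe (pe (arg g a) (arg g b)) (pe (arg g c) (arg g d))))))) l

/-- the clause of a list of literals -/
noncomputable def cls (n2 n3 n4 o3 o4 M g : Nat) (ls : List Lt) : Nat :=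
  List.rec (motive := fun _ => Nat) 0 (fun l _ ih => Nat.lor (Nat.pow 2 (idx n2 n3 n4 o3 o4 M g l)) ih) ls

/-- all digits are `< k` -/
def okd (k g n : Nat) : Bool :=
  Nat.rec (motive := fun _ => Bool) true (fun i ih => Bool.rec false ih (Nat.ble (Nat.add (arg g i) 1) k)) n

/-- the pairs of digits are `<` -/
def oklt (g : Nat) (ps : List (Nat × Nat)) : Bool :=
  List.rec (motive := fun _ => Bool) true
    (fun p _ ih => Bool.rec false ih (Nat.ble (Nat.add (arg g p.1) 1) (arg g p.2))) ps

/-- the pairs of digits are different -/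
def okne (g : Nat) (ps : List (Nat × Nat)) : Bool :=
  List.rec (motive := fun _ => Bool) true (fun p _ ih => Bool.rec ih false (Nat.beq (arg g p.1) (arg g p.2))) ps

/-- the clause of a template, for the digits `g` -/
noncomputable def tcl (k n2 n3 n4 o3 o4 M d g : Nat) (t : Tm) : Nat :=
  Tm.rec (motive := fun _ => Nat) (fun nd lt ne ls =>
    Bool.rec d (Bool.rec d (Bool.rec d (cls n2 n3 n4 o3 o4 M g ls) (okne g ne)) (oklt g lt)) (okd k g nd)) t

/-- the `n`-th template of the list -/
noncomputable def nth (d : Nat) (F : Tm → Nat) (ts : List Tm) : Nat → Nat :=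
  List.rec (motive := fun _ => Nat → Nat) (fun _ => d) (fun t _ ih n =>
    Nat.rec (motive := fun _ => Nat) (F t) (fun m _ => ih m) n) ts

/-- all axioms: code = number of the template (8 bits), digits (4 bits each) -/
noncomputable def axT (k n2 n3 n4 o3 o4 M d : Nat) (ts : List Tm) (c : Nat) : Nat :=
  nth d (tcl k n2 n3 n4 o3 o4 M d (Nat.shiftRight c 8)) ts (Nat.land c 255)

end Pool.Agent.RUP
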